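import Mathlib

namespace Pool.Agent.H.MP_a6f573_an
open Filter Topology

abbrev S := Metric.closedBall (0 : ℂ) 1

noncomputable def z : C(S, ℂ) := ⟨Subtype.val, continuous_subtype_val⟩

@[simp] lemma z_apply (s : S) : z s = s := rfl

lemma nle (s : S) : ‖(s : ℂ)‖ ≤ 1 := mem_closedBall_zero_iff.1 s.2

noncomputable def A0 : Subalgebra ℂ C(S, ℂ) :=
  (Submodule.span ℂ {f | ∃ n, n ≠ 1 ∧ f = z ^ n}).toSubalgebra
    (Submodule.subset_span ⟨0, by simp, by simp⟩)
    (fun x y hx hy => by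
      induction hx, hy using Submodule.span_induction₂ with
      | mem_mem x y hx hy =>
        obtain ⟨n, hn, rfl⟩ := hx
        obtain ⟨m, hm, rfl⟩ := hy
        exact Submodule.subset_span ⟨n + m, by omega, (pow_add _ _ _).symm⟩
      | zero_left => simp
      | zero_right => simp
      | add_left x y z _ _ _ h1 h2 => rw [add_mul]; exact Submodule.add_mem _ h1 h2
      | add_right x y z _ _ _ h1 h2 => rw [mul_add]; exact Submodule.add_mem _ h1 h2
      | smul_left r x y _ _ h => rw [smul_mul_assoc]; exact Submodule.smul_mem _ _ h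
      | smul_right r x y _ _ h => rw [mul_smul_comm]; exact Submodule.smul_mem _ _ h)

noncomputable def A : Subalgebra ℂ C(S, ℂ) := A0.topologicalClosure

lemma A_closed : IsClosed (A : Set C(S, ℂ)) := A0.isClosed_topologicalClosure

lemma pow_mem_A {n : ℕ} (hn : n ≠ 1) : z ^ n ∈ A :=
  A0.le_topologicalClosure (Submodule.subset_span ⟨n, hn, rfl⟩)

lemma A_le (W : Submodule ℂ C(S, ℂ)) (hW : IsClosed (W : Set C(S, ℂ)))
    (h : ∀ n ≠ 1, z ^ n ∈ W) : ∀ f ∈ A, f ∈ W := by
  intro f hf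
  refine closure_minimal (s := (A0 : Set C(S, ℂ))) ?_ hW hf
  refine (Submodule.span_le.2 ?_ : Submodule.span ℂ _ ≤ W)
  rintro _ ⟨n, hn, rfl⟩
  exact h n hn

lemma nA (x : A) : ‖x‖ = ‖(x : C(S, ℂ))‖ := rfl

lemma chars (φ : A →ₐ[ℂ] ℂ) (hφ : Continuous φ) : ∃! s : S, ∀ f : A, φ f = (f : C(S, ℂ)) s := by
  have : CompleteSpace A := A_closed.completeSpace_coe
  let u : A := ⟨z ^ 2, pow_mem_A (by norm_num)⟩
  let v : A := ⟨z ^ 3, pow_mem_A (by norm_num)⟩
  have huv : φ u ^ 3 = φ v ^ 2 := by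
    rw [← map_pow, ← map_pow]; congr 1; ext s; simp [u, v]; ring
  obtain ⟨t, h2, h3⟩ : ∃ t : ℂ, φ u = t ^ 2 ∧ φ v = t ^ 3 := by
    by_cases h : φ u = 0
    · refine ⟨0, by simp [h], ?_⟩
      rw [h] at huv
      simpa using huv.symm
    · refine ⟨φ v / φ u, ?_, ?_⟩
      · field_simp; exact huv
      · field_simp; linear_combination (φ v) * huv
  have ht : ‖t‖ ≤ 1 := by
    have h1 := AlgHom.norm_apply_le_self_mul_norm_one φ u
    have a1 : ‖u‖ ≤ 1 := by
      rw [nA]
      simp only [u]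
      rw [ContinuousMap.norm_le _ zero_le_one]
      intro s
      simpa using nle s
    have a2 : ‖(1 : A)‖ ≤ 1 := by
      rw [nA, OneMemClass.coe_one, ContinuousMap.norm_le _ zero_le_one]
      simp
    rw [h2, norm_pow] at h1
    have : ‖t‖ ^ 2 ≤ 1 := h1.trans (mul_le_one₀ a1 (norm_nonneg _) a2)
    nlinarith [norm_nonneg t]
  have hp : ∀ n (hn : n ≠ 1), φ ⟨z ^ n, pow_mem_A hn⟩ = t ^ n := by
    intro n
    induction n using Nat.strong_induction_on with
    | _ n ih =>
      intro hn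
      by_cases h0 : n = 0
      · subst h0
        have : (⟨z ^ 0, pow_mem_A hn⟩ : A) = 1 := Subtype.ext (pow_zero _)
        rw [this, map_one, pow_zero]
      by_cases h3' : n = 3
      · subst h3'; exact h3
      obtain ⟨k, rfl⟩ : ∃ k, n = k + 2 := ⟨n - 2, by omega⟩
      have : (⟨z ^ (k + 2), pow_mem_A hn⟩ : A) = ⟨z ^ k, pow_mem_A (by omega)⟩ * u :=
        Subtype.ext (pow_add _ _ _)
      rw [this, map_mul, ih k (by omega) (by omega), h2, pow_add]
  refine ⟨⟨t, by simpa using ht⟩, ?_, ?_⟩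
  · let s : S := ⟨t, by simpa using ht⟩
    let W : Submodule ℂ A := LinearMap.ker (φ.toLinearMap -
      (ContinuousMap.evalAlgHom ℂ ℂ s).toLinearMap.comp A.val.toLinearMap)
    have hW : ∀ f : A, f ∈ W ↔ φ f = (f : C(S, ℂ)) s := fun f => by
      simp [W, sub_eq_zero]
    have hc : IsClosed (W : Set A) := by
      have : (W : Set A) = {f | φ f = (f : C(S, ℂ)) s} := Set.ext hW
      rw [this]
      exact isClosed_eq hφ (by fun_prop)
    intro f
    have := A_le (W.map A.val.toLinearMap)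
      (A_closed.isClosedEmbedding_subtypeVal.isClosedMap _ hc)
      (fun n hn => ⟨⟨z ^ n, pow_mem_A hn⟩, (hW _).2 (by simpa using hp n hn), rfl⟩) f f.2
    obtain ⟨g, hg, e⟩ := this
    obtain rfl : g = f := Subtype.ext e
    exact (hW _).1 hg
  · intro s hs
    have a2 : (s : ℂ) ^ 2 = t ^ 2 := by simpa [u, h2] using (hs u).symm
    have a3 : (s : ℂ) ^ 3 = t ^ 3 := by simpa [v, h3] using (hs v).symm
    apply Subtype.ext
    by_cases h : t = 0
    · subst h; simpa using a2
    · have : t ^ 2 * ((s : ℂ) - t) = 0 := by linear_combination a3 - (s : ℂ) * a2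
      exact sub_eq_zero.1 ((mul_eq_zero.1 this).resolve_left (pow_ne_zero _ h))

lemma log_near (k : C(S, ℂ)) (hk : k ∈ A) (h : ‖1 - k‖ < 1) :
    ∃ g ∈ A, ∀ s, k s = Complex.exp (g s) := by
  have hs : Summable fun n : ℕ => (1 / n : ℂ) • (1 - k) ^ n := by
    refine Summable.of_norm_bounded (summable_geometric_of_lt_one (norm_nonneg _) h) fun n => ?_
    rw [norm_smul]
    refine (mul_le_of_le_one_left (norm_nonneg _) ?_).trans (norm_pow_le _ _)
    simpa using Nat.cast_inv_le_one n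
  refine ⟨-∑' n : ℕ, (1 / n : ℂ) • (1 - k) ^ n, A.neg_mem ?_, fun s => ?_⟩
  · exact A_closed.mem_of_tendsto hs.hasSum (Eventually.of_forall fun F =>
      A.sum_mem fun n _ => A.smul_mem (A.pow_mem (A.sub_mem A.one_mem hk) n) _)
  · have h1 : ‖1 - k s‖ < 1 := ((1 - k).norm_coe_le_norm s).trans_lt h
    have h2 := hs.hasSum.mapL (ContinuousMap.evalCLM ℂ s)
    have h3 := Complex.hasSum_taylorSeries_neg_log h1
    have h4 : (∑' n : ℕ, (1 / n : ℂ) • (1 - k) ^ n) s = -Complex.log (1 - (1 - k s)) := by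
      refine h2.unique (h3.congr_fun fun n => ?_)
      simp [div_eq_inv_mul]
    rw [ContinuousMap.neg_apply, h4, neg_neg, sub_sub_cancel, Complex.exp_log]
    intro h0
    simp [h0] at h1

noncomputable def dil : C(unitInterval × S, S) :=
  ⟨fun p => ⟨(p.1 : ℝ) * (p.2 : ℂ), by
    rw [Metric.mem_closedBall, dist_zero_right, norm_mul, Complex.norm_real,
      Real.norm_of_nonneg p.1.2.1]
    exact mul_le_one₀ p.1.2.2 (norm_nonneg _) (nle _)⟩, by fun_prop⟩

lemma dil_mem (t : unitInterval) (f : C(S, ℂ)) (hf : f ∈ A) : (f.comp dil).curry t ∈ A := by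
  refine A_le (A.toSubmodule.comap
    (ContinuousMap.compRightAlgHom ℂ ℂ (dil.curry t)).toLinearMap) ?_ (fun n hn => ?_) f hf
  · exact A_closed.preimage (ContinuousMap.continuous_precomp (dil.curry t))
  · have : (z ^ n).comp (dil.curry t) = (((t : ℝ) : ℂ) ^ n) • z ^ n := by
      ext s; simp [dil, mul_pow]
    show (z ^ n).comp (dil.curry t) ∈ A
    rw [this]
    exact A.smul_mem (pow_mem_A hn) _

lemma exps (f : C(S, ℂ)) (hf : f ∈ A) (h : C(S, ℂ)) (hh : h ∈ A) (e : f * h = 1) :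
    ∃ g ∈ A, ∀ s, f s = Complex.exp (g s) := by
  let F := (f.comp dil).curry
  let H := (h.comp dil).curry
  have FH : ∀ t, F t * H t = 1 := fun t => by
    ext s; exact DFunLike.congr_fun e (dil (t, s))
  let G : unitInterval → Prop := fun t => ∃ g ∈ A, ∀ s, F t s = Complex.exp (g s)
  have st : ∀ x y, ‖1 - F y * H x‖ < 1 → G x → G y := by
    rintro x y hxy ⟨g, hg, eg⟩
    obtain ⟨k, hk, ek⟩ := log_near _ (A.mul_mem (dil_mem y f hf) (dil_mem x h hh)) hxy
    refine ⟨g + k, A.add_mem hg hk, fun s => ?_⟩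
    rw [ContinuousMap.add_apply, Complex.exp_add, ← eg, ← ek]
    have := DFunLike.congr_fun (FH x) s
    simp only [ContinuousMap.mul_apply, ContinuousMap.one_apply] at this ⊢
    linear_combination (-F y s) * this
  have key := PreconnectedSpace.induction₂' (fun x y => G x → G y) (fun x => by
    have c1 : Continuous fun y => ‖1 - F y * H x‖ := by fun_prop
    have c2 : Continuous fun y => ‖1 - F x * H y‖ := by fun_prop
    have e1 := (c1.tendsto x).eventually_lt_const (u := 1) (by simp [FH])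
    have e2 := (c2.tendsto x).eventually_lt_const (u := 1) (by simp [FH])
    filter_upwards [e1, e2] with y h1 h2
    exact ⟨st x y h1, st y x h2⟩) ⟨fun _ _ _ h1 h2 h => h2 (h1 h)⟩ 0 1
  let o : S := ⟨0, by simp⟩
  have f0 : f o ≠ 0 := left_ne_zero_of_mul_eq_one (DFunLike.congr_fun e o)
  obtain ⟨g, hg, eg⟩ := key ⟨algebraMap ℂ _ (Complex.log (f o)), A.algebraMap_mem _, fun s => by
    have : dil (0, s) = o := by ext; simp [dil, o]
    simp [F, this, Complex.exp_log f0]⟩
  refine ⟨g, hg, fun s => ?_⟩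
  have : dil (1, s) = s := by ext; simp [dil]
  simpa [F, this] using eg s

end Pool.Agent.H.MP_a6f573_an
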