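import Mathlib
import Pool.Agent.H.MP_a6f573_an.A
import Pool.Agent.H.MP_ceba03_an.A

namespace Pool.Agent.H.MP_a6f573_an
open Filter Topology MeasureTheory AddCircle Pool.Agent.H.MP_ceba03_an

lemma nf (n : ℤ) (x : T) : ‖fourier n x‖ = 1 := by simp [fourier_apply]

noncomputable def ι : C(T, S) :=
  ⟨fun x => ⟨fourier 1 x, mem_closedBall_zero_iff.2 (nf 1 x).le⟩, by fun_prop⟩

lemma ι_val (x : T) : (ι x : ℂ) = fourier 1 x := rfl

lemma four_pow (k : ℤ) (n : ℕ) (x : T) : fourier k x ^ n = fourier (k * n) x := by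
  induction n with
  | zero => simp
  | succ n ih => rw [pow_succ, ih, ← fourier_add]; congr 2; push_cast; ring

lemma ι_inj : Function.Injective ι := by
  intro x y h
  have := congrArg Subtype.val h
  simp only [ι_val, fourier_one] at this
  exact injective_toCircle one_ne_zero (Circle.ext this)

lemma ι_emb : MeasurableEmbedding ι :=
  (ι.continuous.isClosedEmbedding ι_inj).measurableEmbedding

noncomputable def m : Measure S := μ.map ι

instance : IsFiniteMeasure m := by unfold m; infer_instance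

lemma cintS {E : Type*} [NormedAddCommGroup E] (ν : Measure S) [IsFiniteMeasure ν] {u : S → E}
    (h : Continuous u) : Integrable u ν :=
  h.integrable_of_hasCompactSupport (HasCompactSupport.of_compactSpace _)

lemma cintT {E : Type*} [NormedAddCommGroup E] {u : T → E} (h : Continuous u) : Integrable u μ :=
  h.integrable_of_hasCompactSupport (HasCompactSupport.of_compactSpace _)

noncomputable def mu (H : C(S, ℝ)) : FiniteMeasure S :=
  ⟨m.withDensity fun s => ENNReal.ofReal (H s),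
    isFiniteMeasure_withDensity_ofReal (cintS m H.continuous).hasFiniteIntegral⟩

lemma int_mu {E : Type*} [NormedAddCommGroup E] [NormedSpace ℝ E] (H : C(S, ℝ))
    (hH : ∀ x, 0 ≤ H (ι x)) (F : S → E) :
    ∫ s, F s ∂(mu H : Measure S) = ∫ x, H (ι x) • F (ι x) ∂μ := by
  refine (integral_withDensity_eq_integral_smul (f := fun s => (H s).toNNReal)
    H.continuous.measurable.real_toNNReal F).trans ?_
  rw [m, ι_emb.integral_map]
  congr 1
  funext x
  rw [NNReal.smul_def, Real.coe_toNNReal _ (hH x)]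

lemma mu_ac (H : C(S, ℝ)) : (mu H : Measure S) ≪ m := withDensity_absolutelyContinuous _ _

lemma ae_root : ∀ᵐ x ∂μ, fourier 3 x ≠ 1 := by
  have h : {x : T | fourier 3 x = 1}.Finite := by
    have h1 : {s : ℂ | s ^ 3 = 1}.Finite :=
      (Multiset.finite_toSet (Polynomial.nthRoots 3 (1 : ℂ))).subset fun s hs =>
        (Polynomial.mem_nthRoots (by norm_num)).2 hs
    refine (h1.preimage (f := fun x => (ι x : ℂ))
      (Subtype.val_injective.comp ι_inj).injOn).subset fun x hx => ?_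
    simp only [Set.mem_preimage, Set.mem_ofPred_eq, ι_val, four_pow] at hx ⊢
    exact hx
  rw [ae_iff]
  have : NullSingletonClass μ := ⟨fun x => by
    have := AddCircle.volume_closedBall (T := 1) (x := x) 0
    rw [volume_eq_smul_haarAddCircle] at this
    simpa using this⟩
  simpa using h.measure_zero μ

lemma ac_mu (H : C(S, ℝ)) (hH : ∀ x, fourier 3 x ≠ 1 → 0 < H (ι x)) :
    m ≪ (mu H : Measure S) := by
  refine withDensity_absolutelyContinuous' H.continuous.measurable.ennreal_ofReal.aemeasurable ?_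
  rw [m, ι_emb.ae_map_iff]
  filter_upwards [ae_root] with x hx
  simpa using hH x hx

lemma ae_norm : ∀ᵐ (s : S) ∂m, ‖(s : ℂ)‖ = 1 := by
  rw [m, ι_emb.ae_map_iff]
  exact Eventually.of_forall fun x => nf 1 x

noncomputable def Ex : Submodule ℂ C(T, ℂ) where
  carrier := {u | ∃ f ∈ A, ∃ g ∈ A, u = (f + star g).comp ι}
  zero_mem' := ⟨0, A.zero_mem, 0, A.zero_mem, by ext; simp⟩
  add_mem' := by
    rintro _ _ ⟨f, hf, g, hg, rfl⟩ ⟨f', hf', g', hg', rfl⟩
    exact ⟨f + f', A.add_mem hf hf', g + g', A.add_mem hg hg', by ext; simp; ring⟩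
  smul_mem' := by
    rintro c _ ⟨f, hf, g, hg, rfl⟩
    exact ⟨c • f, A.smul_mem hf _, star c • g, A.smul_mem hg _, by ext; simp⟩

lemma ex_star {u : C(T, ℂ)} (h : u ∈ Ex) : star u ∈ Ex := by
  obtain ⟨f, hf, g, hg, rfl⟩ := h
  exact ⟨g, hg, f, hf, by ext; simp; ring⟩

lemma star_four (n : ℤ) : star (fourier n : C(T, ℂ)) = fourier (-n) := by
  ext x; rw [fourier_neg]; rfl

lemma ex_four {n : ℤ} (h1 : n ≠ 1) (h2 : n ≠ -1) : (fourier n : C(T, ℂ)) ∈ Ex := by
  have key : ∀ k : ℕ, k ≠ 1 → (fourier k : C(T, ℂ)) ∈ Ex := fun k hk =>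
    ⟨z ^ k, pow_mem_A hk, 0, A.zero_mem, by
      ext x; simp only [star_zero, add_zero, ContinuousMap.comp_apply, ContinuousMap.pow_apply,
        z_apply, ι_val, four_pow, one_mul]⟩
  obtain ⟨k, rfl | rfl⟩ := n.eq_nat_or_neg
  · exact key k (by omega)
  · rw [← star_four]; exact ex_star (key k (by omega))

noncomputable def Kt (N : ℕ) : C(T, ℂ) :=
  ∑ p ∈ Finset.range (N + 1) ×ˢ Finset.range (N + 1),
    (1 / (N + 1) : ℂ) • fourier (3 * p.1 - 3 * p.2)

lemma Kt_val (N : ℕ) (x : T) : ∃ r : ℝ, 0 ≤ r ∧ Kt N x = r ∧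
    r * ‖1 - fourier 3 x‖ ^ 2 ≤ 4 / (N + 1) := by
  refine ⟨1 / (N + 1) * ‖∑ j ∈ Finset.range (N + 1), fourier 3 x ^ j‖ ^ 2, by positivity, ?_, ?_⟩
  · push_cast
    rw [← Complex.mul_conj', map_sum, Finset.sum_mul_sum, Kt, ContinuousMap.sum_apply,
      Finset.sum_product, Finset.mul_sum]
    refine Finset.sum_congr rfl fun j _ => ?_
    rw [Finset.mul_sum]
    refine Finset.sum_congr rfl fun k _ => ?_
    rw [sub_eq_add_neg, ContinuousMap.smul_apply, fourier_add, fourier_neg, smul_eq_mul,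
      four_pow, four_pow]
  · rw [mul_assoc, ← mul_pow, ← norm_mul, geom_sum_mul_neg]
    have : ‖1 - fourier 3 x ^ (N + 1)‖ ≤ 2 :=
      (norm_sub_le _ _).trans (by rw [norm_pow, nf]; norm_num)
    rw [one_div, inv_mul_eq_div]
    gcongr
    nlinarith [norm_nonneg (1 - fourier 3 x ^ (N + 1))]

lemma fmul (a b : ℤ) : (fourier a * fourier b : C(T, ℂ)) = fourier (a + b) := by
  ext x; rw [fourier_add]; rfl

lemma Kt_ex (N : ℕ) (k : ℤ) : fourier (3 * k) * Kt N ∈ Ex := by
  rw [Kt, Finset.mul_sum]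
  refine Ex.sum_mem fun p _ => ?_
  rw [mul_smul_comm, fmul]
  exact Ex.smul_mem _ (ex_four (by omega) (by omega))

lemma ssub (c : ℂ) (u v : C(T, ℂ)) : c • u - c • v = c • (u - v) := (smul_sub c u v).symm

lemma Kt_ex1 (N : ℕ) : fourier 1 * Kt N - fourier 1 ∈ Ex := by
  have e : (fourier 1 : C(T, ℂ)) = ∑ p ∈ Finset.range (N + 1) ×ˢ Finset.range (N + 1),
      (1 / (N + 1) : ℂ) • (if p.1 = p.2 then fourier 1 else 0) := by
    rw [← Finset.smul_sum, Finset.sum_product]
    rw [Finset.sum_congr rfl (g := fun _ => fourier 1) fun i hi => by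
      simp only [Finset.sum_ite_eq, hi, if_true]]
    have : (N + 1 : ℂ) ≠ 0 := by exact_mod_cast Nat.succ_ne_zero N
    ext x
    simp only [Finset.sum_const, Finset.card_range, ContinuousMap.smul_apply, nsmul_eq_mul,
      smul_eq_mul, ContinuousMap.mul_apply, ContinuousMap.natCast_apply]
    push_cast; field_simp
  nth_rewrite 2 [e]
  rw [Kt, Finset.mul_sum, ← Finset.sum_sub_distrib]
  refine Ex.sum_mem fun p _ => ?_
  rw [mul_smul_comm, fmul, ssub]
  refine Ex.smul_mem _ ?_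
  split_ifs with h
  · simp [h]
  · rw [sub_zero]; exact ex_four (by omega) (by omega)

def R (H : C(S, ℝ)) (u : C(T, ℂ)) : Prop :=
  ∀ ε > (0 : ℝ), ∃ e ∈ Ex, ∀ x, ‖u x - e x‖ * H (ι x) ≤ ε

lemma allR (H : C(S, ℝ)) (hH : ∀ x, 0 ≤ H (ι x)) (h1 : R H (fourier 1)) (u : C(T, ℂ)) :
    R H u := by
  have key : ∀ p ∈ Submodule.span ℂ (Set.range (@fourier 1)), R H p := by
    intro p hp
    induction hp using Submodule.span_induction with
    | mem x hx =>
      obtain ⟨n, rfl⟩ := hx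
      by_cases a1 : n = 1
      · rwa [a1]
      by_cases a2 : n = -1
      · intro ε hε
        obtain ⟨e, he, h⟩ := h1 ε hε
        refine ⟨star e, ex_star he, fun x => ?_⟩
        rw [a2, ← star_four, ContinuousMap.star_apply, ContinuousMap.star_apply, ← star_sub,
          norm_star]
        exact h x
      · exact fun ε hε => ⟨_, ex_four a1 a2, fun x => by simpa using hε.le⟩
    | zero => exact fun ε hε => ⟨0, Ex.zero_mem, fun x => by simpa using hε.le⟩
    | add x y _ _ hx hy =>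
      intro ε hε
      obtain ⟨e, he, h⟩ := hx (ε / 2) (by positivity)
      obtain ⟨e', he', h'⟩ := hy (ε / 2) (by positivity)
      refine ⟨e + e', Ex.add_mem he he', fun t => ?_⟩
      have : ‖(x + y) t - (e + e') t‖ ≤ ‖x t - e t‖ + ‖y t - e' t‖ := by
        refine le_trans (le_of_eq ?_) (norm_add_le _ _)
        simp only [ContinuousMap.add_apply]; congr 1; ring
      nlinarith [h t, h' t, hH t]
    | smul c x _ hx =>
      intro ε hε
      obtain ⟨e, he, h⟩ := hx (ε / (‖c‖ + 1)) (by positivity)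
      refine ⟨c • e, Ex.smul_mem _ he, fun t => ?_⟩
      have := h t
      rw [le_div_iff₀ (by positivity)] at this
      simp only [ContinuousMap.smul_apply, ← smul_sub, norm_smul]
      nlinarith [mul_nonneg (norm_nonneg (x t - e t)) (hH t)]
  intro ε hε
  have h2 : u ∈ (Submodule.span ℂ (Set.range (@fourier 1))).topologicalClosure := by
    rw [span_fourier_closure_eq_top]; trivial
  obtain ⟨p, hp, hd⟩ := Metric.mem_closure_iff.1 h2 (ε / 2 / (‖H‖ + 1)) (by positivity)
  obtain ⟨e, he, h⟩ := key p hp (ε / 2) (by positivity)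
  refine ⟨e, he, fun x => ?_⟩
  have a1 : ‖u x - p x‖ ≤ ε / 2 / (‖H‖ + 1) := by
    rw [dist_eq_norm] at hd
    exact ((u - p).norm_coe_le_norm x).trans hd.le
  rw [le_div_iff₀ (by positivity)] at a1
  have a2 : H (ι x) ≤ ‖H‖ := (le_abs_self _).trans (H.norm_coe_le_norm _)
  have a3 := norm_sub_le_norm_sub_add_norm_sub (u x) (p x) (e x)
  nlinarith [h x, hH x, norm_nonneg (u x - p x)]

lemma approx (H : C(S, ℝ)) (hH : ∀ x, 0 ≤ H (ι x)) (h1 : R H (fourier 1)) (F : C(S, ℂ)) {ε : ℝ}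
    (hε : 0 < ε) : ∃ f ∈ A, ∃ g ∈ A, ∫ s, ‖F s - (f + star g) s‖ ∂(mu H : Measure S) ≤ ε := by
  obtain ⟨_, ⟨f, hf, g, hg, rfl⟩, h⟩ := allR H hH h1 (F.comp ι) ε hε
  refine ⟨f, hf, g, hg, ?_⟩
  rw [int_mu H hH]
  calc _ ≤ ∫ _, ε ∂μ := by
        refine integral_mono (cintT (by fun_prop)) (integrable_const _) fun x => ?_
        have := h x
        rw [mul_comm] at this
        exact this
    _ = ε := by simp

lemma dense (H : C(S, ℝ)) (hH : ∀ x, 0 ≤ H (ι x)) (h1 : R H (fourier 1)) :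
    Dense {u : Lp ℂ 1 (mu H : Measure S) | ∃ f ∈ A, ∃ g ∈ A,
      u =ᵐ[(mu H : Measure S)] fun s => f s + star (g s)} := by
  refine Dense.of_closure ((ContinuousMap.toLp_denseRange ℂ (mu H : Measure S) ℂ
    (p := 1) (by simp)).mono ?_)
  rintro _ ⟨F, rfl⟩
  rw [Metric.mem_closure_iff]
  intro ε hε
  obtain ⟨f, hf, g, hg, h⟩ := approx H hH h1 F (half_pos hε)
  refine ⟨ContinuousMap.toLp 1 (mu H : Measure S) ℂ (f + star g),
    ⟨f, hf, g, hg, ContinuousMap.coeFn_toLp _ _⟩, ?_⟩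
  rw [dist_eq_norm, ← map_sub, L1.norm_eq_integral_norm, integral_congr_ae
    (g := fun s => ‖F s - (f + star g) s‖)]
  · linarith
  · filter_upwards [ContinuousMap.coeFn_toLp (p := 1) (𝕜 := ℂ) (mu H : Measure S)
      (F - (f + star g))] with s hs
    rw [hs]; rfl

lemma eqv_star {ν ρ : FiniteMeasure S}
    (h : ∀ f ∈ A, ∫ s, f s ∂(ν : Measure S) = ∫ s, f s ∂(ρ : Measure S)) {f g : C(S, ℂ)}
    (hf : f ∈ A) (hg : g ∈ A) :
    ∫ s, (f + star g) s ∂(ν : Measure S) = ∫ s, (f + star g) s ∂(ρ : Measure S) := by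
  simp only [ContinuousMap.add_apply, ContinuousMap.star_apply, RCLike.star_def]
  rw [integral_add (cintS _ (by fun_prop)) (cintS _ (by fun_prop)),
    integral_add (cintS _ (by fun_prop)) (cintS _ (by fun_prop)), integral_conj, integral_conj,
    h f hf, h g hg]

lemma ext_c {ν ρ : FiniteMeasure S}
    (h : ∀ F : C(S, ℂ), ∫ s, F s ∂(ν : Measure S) = ∫ s, F s ∂(ρ : Measure S)) : ν = ρ := by
  refine FiniteMeasure.ext_of_forall_integral_eq fun f => ?_
  have := h ⟨fun s => (f s : ℂ), by fun_prop⟩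
  simp only [ContinuousMap.coe_mk, integral_complex_ofReal] at this
  exact_mod_cast this

lemma cont_int {E : Type} [RCLike E] (F : C(S, E)) :
    Continuous fun ν : FiniteMeasure S => ∫ s, F s ∂(ν : Measure S) := by
  rw [continuous_iff_continuousAt]
  intro ν
  exact (FiniteMeasure.tendsto_iff_forall_integral_rclike_tendsto E).1 tendsto_id
    (BoundedContinuousFunction.mkOfCompact F)

end Pool.Agent.H.MP_a6f573_an
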