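import Mathlib
import Pool.Agent.H.MP_a6f573_an.B

namespace Pool.Agent.H.MP_a6f573_an
open Filter Topology MeasureTheory AddCircle Pool.Agent.H.MP_ceba03_an
open scoped NNReal

def E (ρ : FiniteMeasure S) : Set (FiniteMeasure S) :=
  {ν | (ν : Measure S) ≪ ρ ∧ ∀ f ∈ A, ∫ s, f s ∂(ν : Measure S) = ∫ s, f s ∂(ρ : Measure S)}

lemma clo_eqv {ρ ν : FiniteMeasure S} (h : ν ∈ closure (E ρ)) :
    ∀ f ∈ A, ∫ s, f s ∂(ν : Measure S) = ∫ s, f s ∂(ρ : Measure S) := fun f hf =>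
  closure_minimal (t := {ν : FiniteMeasure S | ∫ s, f s ∂(ν : Measure S) = _})
    (fun _ hν => hν.2 f hf) (isClosed_eq (cont_int f) continuous_const) h

lemma clo_norm {H : C(S, ℝ)} {ν : FiniteMeasure S} (h : ν ∈ closure (E (mu H))) :
    ∀ᵐ (s : S) ∂(ν : Measure S), ‖(s : ℂ)‖ = 1 := by
  let G : C(S, ℝ) := ⟨fun s => 1 - ‖(s : ℂ)‖, by fun_prop⟩
  have h1 : ∫ s, G s ∂(ν : Measure S) = 0 :=
    closure_minimal (t := {ν : FiniteMeasure S | ∫ s, G s ∂(ν : Measure S) = 0})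
      (fun ν hν => integral_eq_zero_of_ae (by
        filter_upwards [(hν.1.trans (mu_ac H)).ae_le ae_norm] with s hs
        simp [G, hs])) (isClosed_eq (cont_int G) continuous_const) h
  rw [integral_eq_zero_iff_of_nonneg (f := G) (fun s => sub_nonneg.2 (nle s))
    (cintS _ G.continuous)] at h1
  filter_upwards [h1] with s hs
  simp only [G, ContinuousMap.coe_mk, Pi.zero_apply] at hs
  linarith

lemma extreme (H : C(S, ℝ)) (hH : ∀ x, 0 ≤ H (ι x)) (h1 : R H (fourier 1)) :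
    mu H ∈ (closure (E (mu H))).extremePoints ℝ≥0 := by
  rw [mem_extremePoints_iff_left]
  refine ⟨subset_closure ⟨Measure.AbsolutelyContinuous.rfl, fun _ _ => rfl⟩, ?_⟩
  rintro ν hν ν' - ⟨a, b, ha, -, -, e⟩
  refine ext_c fun F => ?_
  rw [← sub_eq_zero, ← norm_le_zero_iff]
  refine le_of_forall_pos_le_add fun ε hε => ?_
  have a0 : (0 : ℝ) < a := ha
  obtain ⟨f, hf, g, hg, h⟩ := approx H hH h1 F (ε := ε / (1 + (a : ℝ)⁻¹)) (by positivity)
  have e1 := eqv_star (clo_eqv hν) hf hg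
  obtain ⟨k, hk⟩ : ∃ k, k = f + star g := ⟨_, rfl⟩
  rw [← hk] at h e1
  have b1 : (a : ℝ) * ∫ s, ‖F s - k s‖ ∂(ν : Measure S) ≤
      ∫ s, ‖F s - k s‖ ∂(mu H : Measure S) := by
    rw [← e, FiniteMeasure.toMeasure_add, integral_add_measure (cintS _ (by fun_prop))
      (cintS _ (by fun_prop)), FiniteMeasure.toMeasure_smul, integral_smul_nnreal_measure]
    exact le_add_of_nonneg_right (integral_nonneg fun _ => norm_nonneg _)
  have b2 : ∀ ρ : FiniteMeasure S, ‖∫ s, F s ∂(ρ : Measure S) - ∫ s, k s ∂(ρ : Measure S)‖ ≤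
      ∫ s, ‖F s - k s‖ ∂(ρ : Measure S) := fun ρ => by
    rw [← integral_sub (cintS _ (by fun_prop)) (cintS _ (by fun_prop))]
    exact norm_integral_le_integral_norm _
  have b3 := norm_sub_le_norm_sub_add_norm_sub (∫ s, F s ∂(ν : Measure S))
    (∫ s, k s ∂(ν : Measure S)) (∫ s, F s ∂(mu H : Measure S))
  have b4 := b2 (mu H)
  rw [← e1, norm_sub_rev] at b4
  have b5 := b2 ν
  rw [← le_inv_mul_iff₀ a0] at b1
  rw [le_div_iff₀ (by positivity)] at h
  linarith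

lemma re_int (u : C(T, ℂ)) :
    ∫ x, (fourier 1 x).re • u x ∂μ = (co 1 (toL u) + co (-1) (toL u)) / 2 := by
  rw [co_toL, co_toL, fourierCoeff, fourierCoeff,
    ← integral_add (cintT (by fun_prop)) (cintT (by fun_prop)), ← integral_div]
  congr 1
  funext x
  rw [neg_neg, fourier_neg, Complex.real_smul, Complex.re_eq_add_conj, smul_eq_mul, smul_eq_mul]
  ring

lemma co_A (k : ℤ) (hk : k = 1 ∨ k = -1) : ∀ f ∈ A, co k (toL (f.comp ι)) = 0 := by
  refine A_le ((LinearMap.ker ((co k).comp toL).toLinearMap).comap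
    (ContinuousMap.compRightAlgHom ℂ ℂ ι).toLinearMap) ?_ fun n hn => ?_
  · exact isClosed_eq ((co k).continuous.comp (toL.continuous.comp
      (ContinuousMap.continuous_precomp ι))) continuous_const
  · have : (z ^ n).comp ι = fourier n := by
      ext x
      simp only [ContinuousMap.comp_apply, ContinuousMap.pow_apply, z_apply, ι_val, four_pow,
        one_mul]
    show co k (toL ((z ^ n).comp ι)) = 0
    rw [this, co_fourier, if_neg (by omega)]

lemma re_ann (f : C(S, ℂ)) (hf : f ∈ A) : ∫ x, (fourier 1 x).re • f (ι x) ∂μ = 0 := by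
  have := re_int (f.comp ι)
  rw [co_A 1 (Or.inl rfl) f hf, co_A (-1) (Or.inr rfl) f hf] at this
  simpa using this

noncomputable def J (ν : FiniteMeasure S) (f : C(S, ℂ)) : EReal :=
  ((∫⁻ s, (ENNReal.log ‖f s‖ₑ).toENNReal ∂(ν : Measure S) : ENNReal) : EReal) -
    ((∫⁻ s, (-ENNReal.log ‖f s‖ₑ).toENNReal ∂(ν : Measure S) : ENNReal) : EReal)

lemma test (c : ℝ) : ∃ f ∈ A, ∀ ν : FiniteMeasure S, (∀ᵐ (s : S) ∂(ν : Measure S), ‖(s : ℂ)‖ = 1) →
    J ν f = ((c * ∫ s : S, (s : ℂ).re ∂(ν : Measure S) : ℝ) : EReal) := by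
  have hs := NormedSpace.exp_series_hasSum_exp' (𝕂 := ℂ) ((c : ℂ) • z)
  refine ⟨z ^ 2 * NormedSpace.exp ((c : ℂ) • z), ?_, fun ν hν => ?_⟩
  · refine A_closed.mem_of_tendsto (hs.mul_left (z ^ 2)) (Eventually.of_forall fun F =>
      A.sum_mem fun n _ => ?_)
    rw [smul_pow, mul_smul_comm, mul_smul_comm, ← pow_add]
    exact A.smul_mem (A.smul_mem (pow_mem_A (by omega)) _) _
  have e : ∀ s : S, NormedSpace.exp ((c : ℂ) • z) s = Complex.exp (c * s) := fun s => by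
    rw [Complex.exp_eq_exp_ℂ]
    refine (hs.mapL (ContinuousMap.evalCLM ℂ s)).unique
      ((NormedSpace.exp_series_hasSum_exp' (𝕂 := ℂ) ((c : ℂ) * s)).congr_fun fun n => ?_)
    simp
  have e2 : ∀ᵐ (s : S) ∂(ν : Measure S),
      ENNReal.log ‖(z ^ 2 * NormedSpace.exp ((c : ℂ) • z)) s‖ₑ = ((c * (s : ℂ).re : ℝ) : EReal) := by
    filter_upwards [hν] with s hs
    rw [← ofReal_norm, ContinuousMap.mul_apply, e, norm_mul, ContinuousMap.pow_apply, norm_pow,
      z_apply, hs, Complex.norm_exp, one_pow, one_mul, ENNReal.log_ofReal_of_pos (Real.exp_pos _),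
      Real.log_exp]
    simp
  have i1 : Integrable (fun s : S => c * (s : ℂ).re) (ν : Measure S) := cintS _ (by fun_prop)
  have i2 : Integrable (fun s : S => -(c * (s : ℂ).re)) (ν : Measure S) := cintS _ (by fun_prop)
  rw [J, ← integral_const_mul, integral_eq_lintegral_pos_part_sub_lintegral_neg_part i1,
    EReal.coe_sub, EReal.coe_ennreal_toReal i1.lintegral_lt_top.ne,
    EReal.coe_ennreal_toReal i2.lintegral_lt_top.ne]
  congr 2
  · refine lintegral_congr_ae ?_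
    filter_upwards [e2] with s hs
    rw [hs]; rfl
  · refine lintegral_congr_ae ?_
    filter_upwards [e2] with s hs
    rw [hs]; rfl

noncomputable def H1 : C(S, ℝ) := ⟨fun s => ‖1 + (s : ℂ) + (s : ℂ) ^ 2‖ ^ 2, by fun_prop⟩
noncomputable def H2 : C(S, ℝ) := ⟨fun s => H1 s - (s : ℂ).re, by fun_prop⟩

lemma H1_nn (s : S) : 0 ≤ H1 s := sq_nonneg _

lemma H2_nn (x : T) : 0 ≤ H2 (ι x) := by
  have h := nf 1 x
  simp only [H2, H1, ContinuousMap.coe_mk, ι_val]
  generalize fourier 1 x = w at h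
  have h1 : w.re ^ 2 + w.im ^ 2 = 1 := by
    have := congrArg (· ^ 2) h
    simp only [Complex.sq_norm, Complex.normSq_apply] at this
    linarith
  have : ‖1 + w + w ^ 2‖ ^ 2 = (1 + 2 * w.re) ^ 2 := by
    rw [Complex.sq_norm, Complex.normSq_apply]
    simp [sq]
    linear_combination (w.re ^ 2 + w.im ^ 2 + 2 * w.re) * h1
  rw [this]
  nlinarith [sq_nonneg (w.re + 3 / 8)]

lemma f3 (x : T) : fourier 3 x = fourier 1 x ^ 3 := by rw [four_pow]; rfl

lemma H1_pos (x : T) (h : fourier 3 x ≠ 1) : 0 < H1 (ι x) := by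
  refine pow_pos (norm_pos_iff.2 fun h0 => h ?_) 2
  rw [f3]
  rw [ι_val] at h0
  linear_combination (fourier 1 x - 1) * h0

lemma small {ε : ℝ} (hε : 0 < ε) : ∃ N : ℕ, 4 / ((N : ℝ) + 1) ≤ ε := by
  obtain ⟨N, hN⟩ := exists_nat_gt (4 / ε)
  refine ⟨N, ?_⟩
  rw [div_lt_iff₀ hε] at hN
  rw [div_le_iff₀ (by positivity)]
  nlinarith

lemma R1 : R H1 (fourier 1) := by
  intro ε hε
  obtain ⟨N, hN⟩ := small hε
  refine ⟨(1 / 3 : ℂ) • ((2 : ℂ) • (fourier (3 * 0) * Kt N) + fourier (3 * 1) * Kt N) -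
    (fourier 1 * Kt N - fourier 1), Ex.sub_mem (Ex.smul_mem _ (Ex.add_mem
      (Ex.smul_mem _ (Kt_ex N 0)) (Kt_ex N 1))) (Kt_ex1 N), fun x => ?_⟩
  obtain ⟨r, r0, h1, h2⟩ := Kt_val N x
  have h := nf 1 x
  simp only [ContinuousMap.sub_apply, ContinuousMap.add_apply, ContinuousMap.smul_apply,
    ContinuousMap.mul_apply, h1, mul_zero, mul_one, fourier_zero, smul_eq_mul, H1,
    ContinuousMap.coe_mk, ι_val, f3] at h2 ⊢
  generalize fourier 1 x = w at h h2
  have e1 : w - (1 / 3 * (2 * (1 * (r : ℂ)) + w ^ 3 * r) - (w * r - w)) =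
      -(1 / 3) * r * (2 + w) * (1 - w) ^ 2 := by ring
  have e2 : 1 - w ^ 3 = (1 - w) * (1 + w + w ^ 2) := by ring
  have e3 : ‖2 + w‖ ≤ 3 := (norm_add_le _ _).trans (by rw [h]; norm_num)
  rw [e2, norm_mul, mul_pow] at h2
  rw [e1, norm_mul, norm_mul, norm_mul, norm_pow, Complex.norm_real, Real.norm_of_nonneg r0]
  have e4 : ‖-(1 / 3 : ℂ)‖ = 1 / 3 := by simp
  rw [e4]
  have : 0 ≤ r * (‖1 - w‖ ^ 2 * ‖1 + w + w ^ 2‖ ^ 2) := by positivity
  nlinarith

theorem no_top (σ : FiniteMeasure S) (hσ : σ ∈ closure (E (mu H1))) :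
    ¬ ∀ ν ∈ E (mu H1), ∀ f ∈ A, J ν f ≤ J σ f := by
  intro h
  have key : ∀ ν ∈ E (mu H1), ∫ s : S, (s : ℂ).re ∂(ν : Measure S) =
      ∫ s : S, (s : ℂ).re ∂(σ : Measure S) := by
    intro ν hν
    obtain ⟨f, hf, e⟩ := test 1
    obtain ⟨g, hg, e'⟩ := test (-1)
    have a1 := h ν hν f hf
    have a2 := h ν hν g hg
    rw [e _ (clo_norm hσ), e _ (clo_norm (subset_closure hν)), EReal.coe_le_coe_iff] at a1
    rw [e' _ (clo_norm hσ), e' _ (clo_norm (subset_closure hν)), EReal.coe_le_coe_iff] at a2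
    linarith
  have m2 : mu H2 ∈ E (mu H1) := by
    refine ⟨(mu_ac H2).trans (ac_mu H1 H1_pos), fun f hf => ?_⟩
    rw [int_mu H2 H2_nn, int_mu H1 fun _ => H1_nn _, ← sub_zero (∫ x, H1 (ι x) • f (ι x) ∂μ),
      ← re_ann f hf, ← integral_sub (cintT (by fun_prop)) (cintT (by fun_prop))]
    simp only [← sub_smul]; rfl
  have a := (key _ m2).trans
    (key _ ⟨Measure.AbsolutelyContinuous.rfl, fun _ _ => rfl⟩).symm
  rw [int_mu H2 H2_nn, int_mu H1 fun _ => H1_nn _, eq_comm, ← sub_eq_zero,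
    ← integral_sub (cintT (by fun_prop)) (cintT (by fun_prop))] at a
  refine (Continuous.integral_pos_of_hasCompactSupport_nonneg_nonzero (x := 0) (by fun_prop)
    (HasCompactSupport.of_compactSpace _) (fun x => ?_) ?_).ne' a
  · simp only [H2, ContinuousMap.coe_mk, smul_eq_mul, Pi.zero_apply]
    nlinarith [sq_nonneg (ι x : ℂ).re]
  · simp [H2, ι_val]

end Pool.Agent.H.MP_a6f573_an
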