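import Mathlib
import Pool.Agent.H.MP_a6f573_an.C

namespace Pool.Agent.H.MP_a6f573_an
open Filter Topology MeasureTheory AddCircle Pool.Agent.H.MP_ceba03_an

lemma cintτ {E : Type*} [NormedAddCommGroup E] (τ : Measure T) [IsFiniteMeasure τ] {u : T → E}
    (h : Continuous u) : Integrable u τ :=
  h.integrable_of_hasCompactSupport (HasCompactSupport.of_compactSpace _)

noncomputable def I (τ : Measure T) [IsFiniteMeasure τ] : C(T, ℂ) →L[ℂ] ℂ :=
  LinearMap.mkContinuous
    { toFun := fun u => ∫ x, u x ∂τ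
      map_add' := fun u v => integral_add (cintτ τ u.continuous) (cintτ τ v.continuous)
      map_smul' := fun c u => integral_smul c u } (τ.real Set.univ) fun u => by
    rw [mul_comm]
    exact norm_integral_le_of_norm_le_const (Eventually.of_forall u.norm_coe_le_norm)

lemma I_apply (τ : Measure T) [IsFiniteMeasure τ] (u : C(T, ℂ)) : I τ u = ∫ x, u x ∂τ := rfl

lemma I_le (τ : Measure T) [IsFiniteMeasure τ] (N : ℕ) :
    ‖I τ (fourier 1 * Kt N)‖ ≤ ‖I τ (Kt N)‖ := by
  have e : I τ (Kt N) = ((∫ x, ‖Kt N x‖ ∂τ : ℝ) : ℂ) := by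
    rw [I_apply, ← integral_complex_ofReal]
    congr 1; funext x
    obtain ⟨r, r0, h, -⟩ := Kt_val N x
    rw [h, Complex.norm_real, Real.norm_of_nonneg r0]
  rw [e, Complex.norm_real]
  refine le_trans ?_ (le_abs_self _)
  refine (norm_integral_le_integral_norm _).trans (le_of_eq ?_)
  simp only [ContinuousMap.mul_apply, norm_mul, nf, one_mul]

lemma Kt_ex0 (N : ℕ) : Kt N ∈ Ex := by
  have := Kt_ex N 0
  rwa [mul_zero, show (fourier 0 : C(T, ℂ)) = 1 by ext; simp, one_mul] at this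

lemma I_eq (τ ρ : Measure T) [IsFiniteMeasure τ] [IsFiniteMeasure ρ]
    (h : ∀ e ∈ Ex, I τ e = I ρ e) (hK : ∀ N : ℕ, ‖I ρ (Kt N)‖ ≤ 4 / (N + 1)) : I τ = I ρ := by
  have h1 : I τ (fourier 1) = I ρ (fourier 1) := by
    rw [← sub_eq_zero, ← norm_le_zero_iff]
    refine le_of_forall_pos_le_add fun ε hε => ?_
    obtain ⟨N, hN⟩ := small (half_pos hε)
    have a1 := h _ (Kt_ex1 N)
    rw [map_sub, map_sub] at a1
    have a2 : I τ (fourier 1) - I ρ (fourier 1) =
        I τ (fourier 1 * Kt N) - I ρ (fourier 1 * Kt N) := by linear_combination -a1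
    have a3 := I_le τ N
    rw [h _ (Kt_ex0 N)] at a3
    rw [a2]
    linarith [norm_sub_le (I τ (fourier 1 * Kt N)) (I ρ (fourier 1 * Kt N)), I_le ρ N, hK N]
  refine ContinuousLinearMap.ext_on (s := Set.range (@fourier 1))
    (Submodule.dense_iff_topologicalClosure_eq_top.2 span_fourier_closure_eq_top) ?_
  rintro _ ⟨n, rfl⟩
  by_cases a1 : n = 1
  · rwa [a1]
  by_cases a2 : n = -1
  · rw [a2, ← star_four]
    simp only [I_apply, ContinuousMap.star_apply, RCLike.star_def, integral_conj] at h1 ⊢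
    rw [h1]
  · exact h _ (ex_four a1 a2)

lemma pull (ν : FiniteMeasure S) (h : ∀ᵐ (s : S) ∂(ν : Measure S), ‖(s : ℂ)‖ = 1) (F : S → ℂ) :
    ∫ s, F s ∂(ν : Measure S) = ∫ x, F (ι x) ∂((ν : Measure S).comap ι) := by
  rw [← ι_emb.integral_map, ι_emb.map_comap, Measure.restrict_eq_self_of_ae_mem]
  filter_upwards [h] with s hs
  obtain ⟨x, hx⟩ := (homeomorphCircle (T := 1) one_ne_zero).surjective
    ⟨s, mem_sphere_zero_iff_norm.2 hs⟩
  refine ⟨x, Subtype.ext ?_⟩
  rw [ι_val, fourier_one, ← homeomorphCircle_apply one_ne_zero, hx]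

noncomputable def H3 : C(S, ℝ) := ⟨fun s => ‖1 - (s : ℂ) ^ 3‖ ^ 2, by fun_prop⟩

lemma H3_nn (s : S) : 0 ≤ H3 s := sq_nonneg _

lemma H3_ι (x : T) : H3 (ι x) = ‖1 - fourier 3 x‖ ^ 2 := by rw [f3]; rfl

lemma R3 : R H3 (fourier 1) := by
  intro ε hε
  obtain ⟨N, hN⟩ := small hε
  refine ⟨-(fourier 1 * Kt N - fourier 1), Ex.neg_mem (Kt_ex1 N), fun x => ?_⟩
  obtain ⟨r, r0, h1, h2⟩ := Kt_val N x
  simp only [ContinuousMap.sub_apply, ContinuousMap.mul_apply, h1, H3_ι,
    neg_sub, sub_sub_cancel, norm_mul, nf, one_mul, Complex.norm_real, Real.norm_of_nonneg r0]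
  linarith

lemma only {ν : FiniteMeasure S} (h : ν ∈ closure (E (mu H3))) : ν = mu H3 := by
  have n1 := clo_norm h
  have n2 : ∀ᵐ (s : S) ∂(mu H3 : Measure S), ‖(s : ℂ)‖ = 1 := (mu_ac H3).ae_le ae_norm
  have := I_eq ((ν : Measure S).comap ι) ((mu H3 : Measure S).comap ι) (by
    rintro _ ⟨f, hf, g, hg, rfl⟩
    exact ((pull ν n1 _).symm.trans (eqv_star (clo_eqv h) hf hg)).trans (pull _ n2 _)) (by
    intro N
    obtain ⟨f, -, g, -, e⟩ := Kt_ex0 N
    have e2 : I ((mu H3 : Measure S).comap ι) (Kt N) = ∫ x, H3 (ι x) • Kt N x ∂μ := by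
      rw [e]
      exact (pull _ n2 (f + star g)).symm.trans (int_mu H3 (fun _ => H3_nn _) (f + star g))
    rw [e2]
    refine (norm_integral_le_of_norm_le_const (C := 4 / (N + 1))
      (Eventually.of_forall fun x => ?_)).trans (by simp)
    obtain ⟨r, r0, h1, h2⟩ := Kt_val N x
    rw [norm_smul, h1, Complex.norm_real, Real.norm_of_nonneg r0, Real.norm_of_nonneg (H3_nn _),
      H3_ι]
    linarith)
  refine ext_c fun F => ?_
  rw [pull ν n1, pull _ n2]
  exact DFunLike.congr_fun this (F.comp ι)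

theorem not_dense : ¬ @Dense (Lp ℂ ⊤ (mu H3 : Measure S))
    (⨅ g : Lp ℂ 1 (mu H3 : Measure S), TopologicalSpace.induced
      (fun u : Lp ℂ ⊤ (mu H3 : Measure S) => ∫ s, u s * g s ∂(mu H3 : Measure S)) inferInstance)
    {u | ∃ f ∈ A, ∃ g ∈ A, u =ᵐ[(mu H3 : Measure S)] fun s => f s + star (g s)} := by
  let g0 : S → ℂ := fun s => (((s : ℂ).re / H3 s : ℝ) : ℂ)
  have hm : Measurable g0 := Complex.measurable_ofReal.comp
    ((Complex.measurable_re.comp measurable_subtype_coe).div H3.continuous.measurable)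
  have hg : Integrable g0 (mu H3 : Measure S) := by
    refine (integrable_withDensity_iff_integrable_smul (f := fun s => (H3 s).toNNReal)
      H3.continuous.measurable.real_toNNReal).2 ?_
    refine Integrable.of_bound (H3.continuous.measurable.real_toNNReal.smul hm).aestronglyMeasurable
      1 (Eventually.of_forall fun s => ?_)
    rw [NNReal.smul_def, Real.coe_toNNReal _ (H3_nn s), Complex.real_smul, ← Complex.ofReal_mul,
      Complex.norm_real]
    by_cases h : H3 s = 0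
    · simp [h]
    · rw [mul_div_cancel₀ _ h]
      exact (Complex.abs_re_le_norm _).trans (nle s)
  have key : ∀ (u : Lp ℂ ⊤ (mu H3 : Measure S)) (k : S → ℂ), u =ᵐ[(mu H3 : Measure S)] k →
      ∫ s, u s * hg.toL1 g0 s ∂(mu H3 : Measure S) = ∫ x, (fourier 1 x).re • k (ι x) ∂μ := by
    intro u k hk
    rw [integral_congr_ae (g := fun s => k s * g0 s) (by
      filter_upwards [hk, hg.coeFn_toL1] with s h1 h2
      rw [h1, h2]), int_mu H3 fun _ => H3_nn _]
    refine integral_congr_ae ?_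
    filter_upwards [ae_root] with x hx
    have : ((H3 (ι x) : ℝ) : ℂ) ≠ 0 := by
      rw [H3_ι]
      exact_mod_cast pow_ne_zero 2 (norm_ne_zero_iff.2 (sub_ne_zero.2 hx.symm))
    simp only [g0, Complex.real_smul, ι_val]
    push_cast
    field_simp
  intro hd
  obtain ⟨τ, hτ⟩ : ∃ τ, τ = (⨅ g : Lp ℂ 1 (mu H3 : Measure S), TopologicalSpace.induced
      (fun u : Lp ℂ ⊤ (mu H3 : Measure S) => ∫ s, u s * g s ∂(mu H3 : Measure S))
      inferInstance) := ⟨_, rfl⟩
  rw [← hτ] at hd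
  have ho : IsOpen[τ] ((fun u : Lp ℂ ⊤ (mu H3 : Measure S) =>
      ∫ s, u s * hg.toL1 g0 s ∂(mu H3 : Measure S)) ⁻¹' {0}ᶜ) := by
    rw [hτ]
    exact (iInf_le _ (hg.toL1 g0) : _ ≤ TopologicalSpace.induced _ _) _
      ⟨_, isOpen_compl_singleton, rfl⟩
  obtain ⟨u, h1, f, hf, g, hg', h2⟩ := @Dense.inter_open_nonempty _ τ _ hd _ ho
    ⟨ContinuousMap.toLp ⊤ (mu H3 : Measure S) ℂ z, by
      rw [Set.mem_preimage, key _ _ (ContinuousMap.coeFn_toLp _ _)]
      have := re_int (fourier 1)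
      rw [co_fourier, co_fourier] at this
      exact fun h => by simpa using this.symm.trans h⟩
  rw [Set.mem_preimage, key _ _ h2] at h1
  apply h1
  have a1 := re_ann f hf
  have a2 := congrArg (starRingEnd ℂ) (re_ann g hg')
  rw [← integral_conj, map_zero] at a2
  simp only [smul_add]
  rw [integral_add (cintT (by fun_prop)) (cintT (by fun_prop)), a1, zero_add, Set.mem_singleton_iff,
    ← a2]
  simp

end Pool.Agent.H.MP_a6f573_an
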